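import Pool.Agent.Helper48.AX.Defs

set_option autoImplicit false

/-! Module CPX of MP_efd95c_co: the theorem in the complex plane. -/

open scoped MeasureTheory ENNReal
open Complex

noncomputable section

namespace AX

lemma cpx_K_compact {n : ℕ} (r : ℝ) (c : Fin (n + 1) → ℂ) : IsCompact (K r c) := by
  unfold K
  exact (isCompact_closedBall (c 0) r).of_isClosed_subset
    (isClosed_iInter fun i => Metric.isClosed_closedBall) (Set.iInter_subset _ 0)

lemma cpx_dl_mono {r : ℝ} (hr : 0 < r) {x y x' y' : ℂ} (h : dist x y ≤ dist x' y') :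
    dl r x y ≤ dl r x' y' := by
  unfold dl
  exact Real.monotone_arcsin (div_le_div_of_nonneg_right h (by positivity))

lemma cpx_tour_mono {ι : Type} {D D' : ι → ι → ℝ} (h : ∀ i j, D i j ≤ D' i j) {m : ℕ}
    (f : Fin (m + 1) → ι) : tour D f ≤ tour D' f := by
  unfold tour
  exact add_le_add (Finset.sum_le_sum fun k _ => h _ _) (h _ _)

lemma cpx_point {r : ℝ} (x a : ℂ) (h : dist x a = r) : ∃ θ : ℝ, x = a + (r : ℂ) * e θ := by
  refine ⟨Complex.arg (x - a), ?_⟩
  unfold e
  have h1 := Complex.norm_mul_exp_arg_mul_I (x - a)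
  rw [← h, dist_eq_norm, h1]
  ring

lemma cpx_frontier_ball (r : ℝ) (a b : ℂ) : μH[1] (frontier (Metric.closedBall a r)) =
    μH[1] (frontier (Metric.closedBall b r)) := by
  have h1 : (IsometryEquiv.addRight (b - a)) '' (frontier (Metric.closedBall a r)) =
      frontier (Metric.closedBall b r) := by
    have h2 := (IsometryEquiv.addRight (b - a)).toHomeomorph.image_frontier
      (Metric.closedBall a r)
    have h3 : (IsometryEquiv.addRight (b - a)) '' (Metric.closedBall a r) =
      Metric.closedBall b r := by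
      rw [IsometryEquiv.image_closedBall]
      congr 1
      simp
    have h4 : ((IsometryEquiv.addRight (b - a)).toHomeomorph : ℂ → ℂ) =
      (IsometryEquiv.addRight (b - a)) := rfl
    rw [h4, h3] at h2
    exact h2
  rw [← h1, IsometryEquiv.hausdorffMeasure_image]

theorem st_CPX (hK : ST_KIRS) (hMin : ST_MIN) (hMono : ST_MONO) (hF : ST_FORM)
    (hT : ST_TOUR) : ST_CPX := by
  intro n r p q J hr hd hJ hp
  have eK : ∀ c : Fin n → ℂ, (⋂ i, Metric.closedBall (c i) r) = K r c := fun c => rfl
  rw [eK p, eK q]
  rw [eK q] at hJ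
  rcases n with _ | n
  · have h1 : ∀ c : Fin 0 → ℂ, K r c = Set.univ := by
      intro c
      unfold K
      exact Set.iInter_of_empty _
    rw [h1 p, h1 q]
  rcases (K r p).eq_empty_or_nonempty with hpe | hpe
  · rw [hpe, frontier_empty, MeasureTheory.measure_empty]
    exact bot_le
  have hqe := hK (n + 1) r p q hd hpe
  obtain ⟨m, g, hinj, hgJ, hKg, hTn⟩ := hMin (n + 1) r q J hr hqe hJ
  have hsub : ∀ (k : ℕ) (g : Fin k → Fin (n + 1)), K r p ⊆ K r (fun i => p (g i)) := by
    intro k g x hx
    unfold K at hx ⊢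
    rw [Set.mem_iInter] at hx ⊢
    exact fun i => hx (g i)
  rcases m with _ | _ | m
  · exfalso
    have h1 : K r (fun i => q (g i)) = Set.univ := by
      unfold K
      exact Set.iInter_of_empty _
    rw [h1] at hKg
    have h2 := cpx_K_compact r q
    rw [← hKg] at h2
    exact (noncompact_univ ℂ) h2
  · have h1 : ∀ c : Fin (n + 1) → ℂ, K r (fun i => c (g i)) = Metric.closedBall (c (g 0)) r := by
      intro c
      unfold K
      ext x
      rw [Set.mem_iInter]
      constructor
      · exact fun h => h 0
      · intro h i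
        have hi : i = 0 := Fin.ext (by simp)
        rw [hi]
        exact h
    rw [← hKg, h1 q]
    have h2 := hsub _ g
    rw [h1 p] at h2
    rw [cpx_frontier_ball r (q (g 0)) (p (g 0))]
    exact hMono n r p _ hr h2 (isCompact_closedBall _ _)
  · have hinjp : Function.Injective (fun i => p (g i)) := by
      intro i j hij
      apply hinj
      have h1 := hd (g i) (g j)
      have h2 : dist (p (g i)) (p (g j)) = 0 := by
        rw [dist_eq_zero]
        exact hij
      rw [h2] at h1
      exact dist_eq_zero.1 (le_antisymm h1 dist_nonneg)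
    have hTp : ∀ i, (T r (fun i => p (g i)) i).Nonempty := by
      intro i
      obtain ⟨x, hx1, hx2⟩ := hp (g i) (hgJ i)
      obtain ⟨θ, hθ⟩ := cpx_point x (p (g i)) hx1
      refine ⟨θ, ?_⟩
      unfold T
      rw [Set.mem_ofPred_eq, ← hθ]
      unfold K
      rw [Set.mem_iInter]
      intro j
      exact hx2 (g j) (hgJ j)
    obtain ⟨σ, t, -, -, -, hform⟩ := hF m r (fun i => p (g i)) hr hinjp hTp
    have h1 := hMono n r p (K r (fun i => p (g i))) hr (hsub _ g) (cpx_K_compact r _)
    have h2 := hT m r (fun i => q (g i)) (fun k => σ k) hr hinj hTn σ.injective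
    rw [hKg] at h2
    refine h1.trans (le_trans ?_ h2)
    rw [hform]
    apply ENNReal.ofReal_le_ofReal
    have h3 : tour (fun i j => dl r (q (g i)) (q (g j))) (fun k => σ k) ≤
        tour (fun i j => dl r (p (g i)) (p (g j))) (fun k => σ k) :=
      cpx_tour_mono (fun i j => cpx_dl_mono hr (hd _ _)) _
    exact mul_le_mul_of_nonneg_left (by linarith) (by positivity)

end AX
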